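import Pool.Agent.H86.DB.Targets

/-!
Row GEN of the board db_modules (`MP_44217d_ag`): the dimension of a thickening.
-/

set_option autoImplicit false

open Module

namespace Pool.Agent.H55.DB

open Pool.Agent.H86.DB

universe u

section

variable {k : Type u} [Field k] {A : Type u} [CommRing A] [Algebra k A] {m : ℕ}

/-- the products of `i` elements of the family generate the `i`-th power of the ideal -/
theorem pow_le (y : Fin m → A) (i : ℕ) : Ideal.span (Set.range y) ^ i ≤
    Ideal.span {p : A | ∃ t : Multiset (Fin m), t.card = i ∧ p = (t.map y).prod} := by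
  induction i with
  | zero =>
    rw [pow_zero, Ideal.one_eq_top, top_le_iff, Ideal.eq_top_iff_one]
    exact Ideal.subset_span ⟨0, rfl, by simp⟩
  | succ i ih =>
    rw [pow_succ]
    refine (Ideal.mul_mono_left ih).trans ?_
    rw [Ideal.span_mul_span']
    refine Ideal.span_mono ?_
    rintro _ ⟨p, ⟨t, ht, rfl⟩, _, ⟨j, rfl⟩, rfl⟩
    refine ⟨j ::ₘ t, by rw [Multiset.card_cons, ht], ?_⟩
    rw [Multiset.map_cons, Multiset.prod_cons]
    exact mul_comm _ _

theorem prod_mem (y : Fin m → A) (t : Multiset (Fin m)) :
    (t.map y).prod ∈ Ideal.span (Set.range y) ^ t.card := by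
  induction t using Multiset.induction_on with
  | empty => simp
  | cons j t ih =>
    rw [Multiset.map_cons, Multiset.prod_cons, Multiset.card_cons, pow_succ, mul_comm (y j)]
    exact Ideal.mul_mem_mul ih (Ideal.subset_span ⟨j, rfl⟩)

/-- the products -/
noncomputable def fam (y : Fin m → A) {d : ℕ} (v : Fin d → A) (n : ℕ)
    (q : Sym (Option (Fin m)) n × Fin d) : A :=
  ((q.1 : Multiset (Option (Fin m))).map (fun o => o.elim 1 y)).prod * v q.2

theorem fam_mem (y : Fin m → A) {d : ℕ} (v : Fin d → A) (n : ℕ) (t : Multiset (Fin m))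
    (ht : t.card ≤ n) (l : Fin d) :
    (t.map y).prod * v l ∈ Submodule.span k (Set.range (fam y v n)) := by
  refine Submodule.subset_span ⟨(⟨t.map some + Multiset.replicate (n - t.card) none, ?_⟩, l), ?_⟩
  · rw [Multiset.card_add, Multiset.card_map, Multiset.card_replicate]
    omega
  · unfold fam
    show ((t.map some + Multiset.replicate (n - t.card) none).map
      (fun o : Option (Fin m) => o.elim 1 y)).prod * v l = _
    rw [Multiset.map_add, Multiset.prod_add, Multiset.map_map, Multiset.map_replicate,
      Multiset.prod_replicate]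
    simp [Function.comp_def]

end

/-- GEN -/
theorem pf_GEN : T_GEN.{u} := by
  intro k _ A _ _ _ m n y hy
  set q : Ideal A := Ideal.span (Set.range y) with hq
  set d := finrank k (A ⧸ q) with hd
  let b : Basis (Fin d) k (A ⧸ q) := Module.finBasis k (A ⧸ q)
  have hv : ∀ l, ∃ a : A, Ideal.Quotient.mk q a = b l := fun l => Ideal.Quotient.mk_surjective _
  choose v hv using hv
  set W := Submodule.span k (Set.range (fam y v n)) with hW
  have hdec : ∀ a : A, ∃ c : Fin d → k, a - ∑ l, c l • v l ∈ q := by
    intro a
    refine ⟨fun l => b.repr (Ideal.Quotient.mk q a) l, ?_⟩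
    rw [← Ideal.Quotient.eq_zero_iff_mem, map_sub, map_sum]
    have h1 : ∀ l, Ideal.Quotient.mk q ((b.repr (Ideal.Quotient.mk q a) l) • v l) =
        (b.repr (Ideal.Quotient.mk q a) l) • b l := by
      intro l
      rw [← hv l]
      rfl
    rw [Finset.sum_congr rfl fun l _ => h1 l, b.sum_repr, sub_self]
  have hstep : ∀ i, i ≤ n → (∀ z ∈ q ^ (i + 1), z ∈ W) → ∀ z ∈ q ^ i, z ∈ W := by
    intro i hi hz z hzi
    have h1 := pow_le y i hzi
    have h2 : ∀ a : A, a * z ∈ W := by
      refine Submodule.span_induction (p := fun x _ => ∀ a : A, a * x ∈ W) ?_ ?_ ?_ ?_ h1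
      · rintro _ ⟨t, ht, rfl⟩ a
        obtain ⟨c, hc⟩ := hdec a
        have e : a * (t.map y).prod = (∑ l, c l • ((t.map y).prod * v l)) +
            (a - ∑ l, c l • v l) * (t.map y).prod := by
          rw [sub_mul, Finset.sum_mul]
          have h3 : ∀ l, c l • ((t.map y).prod * v l) = c l • v l * (t.map y).prod := by
            intro l
            rw [smul_mul_assoc, mul_comm]
          rw [Finset.sum_congr rfl fun l _ => h3 l]
          ring
        rw [e]
        refine W.add_mem (W.sum_mem fun l _ => W.smul_mem _ (fam_mem y v n t (ht.trans_le hi) l))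
          (hz _ ?_)
        rw [pow_succ, mul_comm (a - _)]
        have h4 := prod_mem y t
        rw [ht] at h4
        exact Ideal.mul_mem_mul h4 hc
      · intro a
        rw [mul_zero]
        exact W.zero_mem
      · intro x x' _ _ hx hx' a
        rw [mul_add]
        exact W.add_mem (hx a) (hx' a)
      · intro r x _ hx a
        rw [smul_eq_mul, ← mul_assoc]
        exact hx (a * r)
    have h3 := h2 1
    rwa [one_mul] at h3
  have hall : ∀ j, j ≤ n + 1 → ∀ z ∈ q ^ (n + 1 - j), z ∈ W := by
    intro j
    induction j with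
    | zero =>
      intro _ z hz
      rw [Nat.sub_zero, hy, Ideal.mem_bot] at hz
      rw [hz]
      exact W.zero_mem
    | succ j ih =>
      intro hj
      refine hstep (n + 1 - (j + 1)) (by omega) ?_
      have e : n + 1 - (j + 1) + 1 = n + 1 - j := by omega
      rw [e]
      exact ih (by omega)
  have htop : W = ⊤ := by
    rw [eq_top_iff]
    intro z _
    refine hall (n + 1) le_rfl z ?_
    rw [Nat.sub_self, pow_zero, Ideal.one_eq_top]
    trivial
  have h1 := finrank_range_le_card (R := k) (fam y v n)
  rw [Set.finrank, ← hW, htop, finrank_top, Fintype.card_prod, Fintype.card_fin,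
    Sym.card_sym_eq_choose, Fintype.card_option, Fintype.card_fin] at h1
  refine h1.trans (le_of_eq ?_)
  rw [mul_comm]
  congr 1
  have e : m + 1 + n - 1 = n + m := by omega
  rw [e]
  exact Nat.choose_symm_add

end Pool.Agent.H55.DB
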